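import Pool.Agent.L0h19.QE.Stm

set_option autoImplicit false

/-! # Module CNA -/

namespace Pool.Agent.L0h59.QE

open Finset Pool.Agent.L0h19.QE

/-- the number of elements of a residue class in an interval -/
theorem card_class (T m : ℕ) (hm : 1 ≤ m) (S : Finset ℤ) (hS : ∀ x ∈ S, x ∈ Icc (-(T : ℤ)) T)
    (hc : ∀ x ∈ S, ∀ y ∈ S, (m : ℤ) ∣ x - y) : S.card ≤ 2 * T / m + 1 := by
  have hm0 : (0 : ℤ) < m := by exact_mod_cast hm
  rcases S.eq_empty_or_nonempty with rfl | hne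
  · simp
  · have hx0 := S.min'_mem hne
    set x0 := S.min' hne with hx0d
    have key : S.card ≤ (Finset.range (2 * T / m + 1)).card := by
      apply Finset.card_le_card_of_injOn (fun x => ((x - x0) / (m : ℤ)).toNat)
      · intro x hx
        have h1 : x0 ≤ x := S.min'_le x hx
        have h2 : x - x0 ≤ ((2 * T : ℕ) : ℤ) := by
          have h3 := (mem_Icc.1 (hS x hx)).2
          have h4 := (mem_Icc.1 (hS x0 hx0)).1
          push_cast
          omega
        have h3 : (x - x0) / (m : ℤ) ≤ ((2 * T / m : ℕ) : ℤ) := by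
          rw [Int.natCast_div]
          exact Int.ediv_le_ediv hm0 h2
        have h4 : ((x - x0) / (m : ℤ)).toNat ≤ 2 * T / m := Int.toNat_le.2 h3
        simp only [Finset.coe_range, Set.mem_Iio]
        exact Nat.lt_succ_of_le h4
      · intro x hx y hy hxy
        have h1 : x0 ≤ x := S.min'_le x hx
        have h1' : x0 ≤ y := S.min'_le y hy
        have h2 : 0 ≤ (x - x0) / (m : ℤ) := Int.ediv_nonneg (by omega) hm0.le
        have h2' : 0 ≤ (y - x0) / (m : ℤ) := Int.ediv_nonneg (by omega) hm0.le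
        have h3 : (x - x0) / (m : ℤ) = (y - x0) / (m : ℤ) := by
          have h6 : (((x - x0) / (m : ℤ)).toNat : ℤ) = (((y - x0) / (m : ℤ)).toNat : ℤ) := by
            exact_mod_cast hxy
          rwa [Int.toNat_of_nonneg h2, Int.toNat_of_nonneg h2'] at h6
        have h4 := Int.ediv_mul_cancel (hc x hx x0 hx0)
        have h5 := Int.ediv_mul_cancel (hc y hy x0 hx0)
        rw [h3, h5] at h4
        omega
    simpa using key

/-- the number of the triples -/
theorem cna_nat (T v₁ v₂ v₃ : ℕ) (h1 : 1 ≤ v₁) (h2 : 1 ≤ v₂) (h3 : 1 ≤ v₃) :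
    ((Icc (-(T : ℤ)) T ×ˢ Icc (-(T : ℤ)) T ×ˢ Icc (-(T : ℤ)) T).filter
    (fun u : ℤ × ℤ × ℤ => u.1 * v₁ + u.2.1 * v₂ + u.2.2 * v₃ = 0)).card ≤
    (2 * T / (v₃ / Nat.gcd v₂ v₃) + 1) *
      (2 * T / (Nat.gcd v₂ v₃ / Nat.gcd v₁ (Nat.gcd v₂ v₃)) + 1) := by
  set g := Nat.gcd v₂ v₃ with hg
  set d := Nat.gcd v₁ g with hd
  have hg0 : 0 < g := Nat.gcd_pos_of_pos_right _ h3
  have hd0 : 0 < d := Nat.gcd_pos_of_pos_right _ hg0
  have hg3 : g ∣ v₃ := Nat.gcd_dvd_right _ _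
  have hg2 : g ∣ v₂ := Nat.gcd_dvd_left _ _
  have hdg : d ∣ g := Nat.gcd_dvd_right _ _
  have hd1 : d ∣ v₁ := Nat.gcd_dvd_left _ _
  set B := (Icc (-(T : ℤ)) T ×ˢ Icc (-(T : ℤ)) T ×ˢ Icc (-(T : ℤ)) T).filter
    (fun u : ℤ × ℤ × ℤ => u.1 * v₁ + u.2.1 * v₂ + u.2.2 * v₃ = 0) with hB
  have hv3 : (v₃ : ℤ) ≠ 0 := by
    have : v₃ ≠ 0 := by omega
    exact_mod_cast this
  have hm1 : 1 ≤ v₃ / g := Nat.div_pos (Nat.le_of_dvd (by omega) hg3) hg0
  have hm2 : 1 ≤ g / d := Nat.div_pos (Nat.le_of_dvd hg0 hdg) hd0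
  have hfib : ∀ a ∈ B.image (fun u => u.1), (B.filter (fun u => u.1 = a)).card ≤
      2 * T / (v₃ / g) + 1 := by
    intro a _
    have hinj : Set.InjOn (fun u : ℤ × ℤ × ℤ => u.2.1) (B.filter (fun u => u.1 = a)) := by
      rintro ⟨x, y, z⟩ hx ⟨x', y', z'⟩ hx' hyy
      simp only [coe_filter, Set.mem_setOf_eq, hB, mem_filter] at hx hx' hyy
      obtain ⟨⟨-, e1⟩, rfl⟩ := hx
      obtain ⟨⟨-, e2⟩, rfl⟩ := hx'
      subst hyy
      have h5 : (z : ℤ) * v₃ = z' * v₃ := by linarith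
      have h6 : z = z' := mul_right_cancel₀ hv3 h5
      rw [h6]
    rw [← card_image_of_injOn hinj]
    refine card_class T _ hm1 _ ?_ ?_
    · intro y hy
      obtain ⟨⟨x', y', z'⟩, hu, rfl⟩ := mem_image.1 hy
      have h5 := (mem_filter.1 (mem_filter.1 hu).1).1
      exact (mem_product.1 (mem_product.1 h5).2).1
    · intro y hy y' hy'
      obtain ⟨⟨x1, y1, z1⟩, hu, rfl⟩ := mem_image.1 hy
      obtain ⟨⟨x2, y2, z2⟩, hu', rfl⟩ := mem_image.1 hy'
      have e1 := (mem_filter.1 (mem_filter.1 hu).1).2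
      have e2 := (mem_filter.1 (mem_filter.1 hu').1).2
      have e3 := (mem_filter.1 hu).2
      have e4 := (mem_filter.1 hu').2
      simp only at e1 e2 e3 e4
      rw [e3] at e1
      rw [e4] at e2
      simp only
      have h5 : (v₃ : ℤ) ∣ (v₂ : ℤ) * (y1 - y2) := ⟨z2 - z1, by linear_combination e1 - e2⟩
      obtain ⟨k2, hk2⟩ := hg2
      obtain ⟨k3, hk3⟩ := hg3
      have hdiv : v₃ / g = k3 := by
        rw [hk3]
        exact Nat.mul_div_cancel_left _ hg0
      rw [hdiv]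
      have hcop : Nat.Coprime k3 k2 := by
        have h6 : g * Nat.gcd k2 k3 = g := by
          rw [← Nat.gcd_mul_left, ← hk2, ← hk3]
        have h7 : Nat.gcd k2 k3 = 1 := Nat.eq_of_mul_eq_mul_left hg0 (by rw [h6, mul_one])
        exact Nat.coprime_comm.1 h7
      have hgz : (g : ℤ) ≠ 0 := by exact_mod_cast hg0.ne'
      have h8 : (k3 : ℤ) ∣ (k2 : ℤ) * (y1 - y2) := by
        rw [hk2, hk3] at h5
        push_cast at h5
        rw [mul_assoc] at h5
        exact (mul_dvd_mul_iff_left hgz).1 h5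
      exact (Int.isCoprime_iff_gcd_eq_one.2 (by simpa using hcop)).dvd_of_dvd_mul_left h8
  have himg : (B.image (fun u => u.1)).card ≤ 2 * T / (g / d) + 1 := by
    refine card_class T _ hm2 _ ?_ ?_
    · intro y hy
      obtain ⟨⟨x', y', z'⟩, hu, rfl⟩ := mem_image.1 hy
      have h5 := (mem_filter.1 hu).1
      exact (mem_product.1 h5).1
    · have hdv : ∀ y ∈ B.image (fun u => u.1), ((g / d : ℕ) : ℤ) ∣ y := by
        intro y hy
        obtain ⟨⟨x1, y1, z1⟩, hu, rfl⟩ := mem_image.1 hy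
        have e1 := (mem_filter.1 hu).2
        simp only at e1 ⊢
        obtain ⟨k1, hk1⟩ := hd1
        obtain ⟨kg, hkg⟩ := hdg
        have hdiv : g / d = kg := by
          rw [hkg]
          exact Nat.mul_div_cancel_left _ hd0
        rw [hdiv]
        have hcop : Nat.Coprime kg k1 := by
          have h6 : d * Nat.gcd k1 kg = d := by
            rw [← Nat.gcd_mul_left, ← hk1, ← hkg]
          have h7 : Nat.gcd k1 kg = 1 := Nat.eq_of_mul_eq_mul_left hd0 (by rw [h6, mul_one])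
          exact Nat.coprime_comm.1 h7
        have h5 : (g : ℤ) ∣ (v₁ : ℤ) * x1 := by
          have h6 : (g : ℤ) ∣ (v₂ : ℤ) := by exact_mod_cast hg2
          have h7 : (g : ℤ) ∣ (v₃ : ℤ) := by exact_mod_cast hg3
          have h8 : (v₁ : ℤ) * x1 = -(y1 * v₂ + z1 * v₃) := by linarith
          rw [h8, dvd_neg]
          exact dvd_add (Dvd.dvd.mul_left h6 _) (Dvd.dvd.mul_left h7 _)
        have hdz : (d : ℤ) ≠ 0 := by exact_mod_cast hd0.ne'
        have h8 : (kg : ℤ) ∣ (k1 : ℤ) * x1 := by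
          have h9 : (d : ℤ) * kg ∣ (d : ℤ) * (k1 * x1) := by
            have h10 : (g : ℤ) = (d : ℤ) * kg := by exact_mod_cast hkg
            have h11 : (v₁ : ℤ) = (d : ℤ) * k1 := by exact_mod_cast hk1
            rw [h10, h11, mul_assoc] at h5
            exact h5
          exact (mul_dvd_mul_iff_left hdz).1 h9
        exact (Int.isCoprime_iff_gcd_eq_one.2 (by simpa using hcop)).dvd_of_dvd_mul_left h8
      intro x hx y hy
      exact dvd_sub (hdv x hx) (hdv y hy)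
  calc B.card ≤ (2 * T / (v₃ / g) + 1) * (B.image (fun u => u.1)).card :=
        card_le_mul_card_image B _ hfib
    _ ≤ _ := Nat.mul_le_mul_left _ himg

theorem t_CNA : S_CNA := by
  intro T v₁ v₂ v₃ h1 h2 h3
  have h := cna_nat T v₁ v₂ v₃ h1 h2 h3
  set g := Nat.gcd v₂ v₃ with hg
  set d := Nat.gcd v₁ g with hd
  have hg0 : 0 < g := Nat.gcd_pos_of_pos_right _ h3
  have hd0 : 0 < d := Nat.gcd_pos_of_pos_right _ hg0
  have hg3 : g ∣ v₃ := Nat.gcd_dvd_right _ _
  have hdg : d ∣ g := Nat.gcd_dvd_right _ _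
  have hgr : (0 : ℝ) < g := by exact_mod_cast hg0
  have hdr : (0 : ℝ) < d := by exact_mod_cast hd0
  have hvr : (0 : ℝ) < v₃ := by
    have : 0 < v₃ := by omega
    exact_mod_cast this
  have hA : ((2 * T / (v₃ / g) : ℕ) : ℝ) ≤ 2 * T * g / v₃ := by
    refine Nat.cast_div_le.trans (le_of_eq ?_)
    rw [Nat.cast_div hg3 hgr.ne']
    push_cast
    field_simp
  have hB : ((2 * T / (g / d) : ℕ) : ℝ) ≤ 2 * T * d / g := by
    refine Nat.cast_div_le.trans (le_of_eq ?_)
    rw [Nat.cast_div hdg hdr.ne']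
    push_cast
    field_simp
  have hA0 : (0 : ℝ) ≤ ((2 * T / (v₃ / g) : ℕ) : ℝ) := Nat.cast_nonneg _
  have hB0 : (0 : ℝ) ≤ ((2 * T / (g / d) : ℕ) : ℝ) := Nat.cast_nonneg _
  refine le_trans (Nat.cast_le.2 h) ?_
  push_cast only [Nat.cast_mul, Nat.cast_add, Nat.cast_one] at *
  rw [mul_comm]
  exact mul_le_mul (by linarith) (by linarith) (by linarith) (by linarith)

end Pool.Agent.L0h59.QE
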